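import Mathlib
import Pool.Agent.Helper8.RU.RUf

set_option autoImplicit false

namespace Pool.Agent.Results.MP_b7477f_nt.AlmostAllModuli

/-- Rudin's conjecture outside a set of `O (X ^ ε)` moduli `q ≤ X`: for the other moduli, all `a`
coprime to `q` and all `N`, the number of squares among the first `N` terms of `q n + a` is at most
`C (N ^ ε + √N q ^ (ε - 1/2))`, and it is at most `C` for `N ≤ X ^ δ`. -/
theorem result : ∀ ε : ℝ, 0 < ε → ∃ C δ : ℝ, 0 < δ ∧ ∀ X : ℕ, 1 ≤ X →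
    ∃ E : Finset ℕ, (E.card : ℝ) ≤ C * (X : ℝ) ^ ε ∧
      ∀ q : ℕ, 1 ≤ q → q ≤ X → q ∉ E → ∀ a N : ℕ, Nat.Coprime q a →
        (((Finset.range N).filter (fun n => IsSquare (q * n + a))).card : ℝ) ≤
            C * ((N : ℝ) ^ ε + Real.sqrt N * (q : ℝ) ^ (ε - 1 / 2)) ∧
        ((N : ℝ) ≤ (X : ℝ) ^ δ →
          (((Finset.range N).filter (fun n => IsSquare (q * n + a))).card : ℝ) ≤ C) :=
  fun ε hε => Pool.Agent.Helper8.RU.main ε hε

end Pool.Agent.Results.MP_b7477f_nt.AlmostAllModuli
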