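import Mathlib
import Pool.Agent.Helper30.Rudin.Main

set_option autoImplicit false

namespace Pool.Agent.Results.MP_b7477f_nt.FewPrimeFactors

/-- Squares among the first `N` terms of `q n + a`, `gcd(q, a) = 1`: for every `ε > 0` their number
is at most `C (N ^ ε + √N q ^ (ε - 1/2) + ω(q))`, where `ω(q)` is the number of distinct prime
factors of `q`. -/
theorem result : ∀ ε : ℝ, 0 < ε → ∃ C : ℝ, ∀ N q a : ℕ, 1 ≤ N → 1 ≤ q → Nat.Coprime q a →
    (((Finset.range N).filter (fun n => IsSquare (q * n + a))).card : ℝ) ≤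
      C * ((N : ℝ) ^ ε + Real.sqrt N * (q : ℝ) ^ (ε - 1 / 2) + (q.primeFactors.card : ℝ)) :=
  fun ε hε => Pool.Helper30.Rudin.main ε hε

end Pool.Agent.Results.MP_b7477f_nt.FewPrimeFactors
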