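import Pool.Agent.Helper83.RU.Unif

open Finset

/-- Squares in arithmetic progressions and the prime powers dividing the modulus. -/
theorem Pool.Agent.Results.MP_b7477f_nt.HigherMoments.result :
    ∀ k N q a : ℕ, 2 ≤ N → 1 ≤ q → Nat.Coprime q a →
      (((range N).filter (fun n => IsSquare (q * n + a))).card : ℝ) ^ k *
          ∑ p ∈ q.primeFactors, (q.factorization p * Real.log p) ^ 2 ≤
        144 * (2 * (k : ℝ)) ^ k * Real.log q ^ 2 + 16388 * ((k : ℝ) + 1) ^ 2 *
          ((((range N).filter (fun n => IsSquare (q * n + a))).card : ℝ) ^ k *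
            Real.log q * Real.log N) :=
  Pool.Agent.Helper83.RU.Unif.final
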