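import Mathlib
import Pool.Agent.Helper18.RD6.All16

set_option autoImplicit false

namespace Pool.Agent.Results.MP_b7477f_nt.LargePrimePowers

/-- Squares among the first `N` terms of `q n + a`, `q = q₀ q₁ q₂` of any size, `q₀, q₁, q₂`
pairwise coprime, all primes of `q₀` at most `N`.  For all `ε, K > 0` there are `C`, `κ` such that
their number is at most `C` times the least of
`N ^ ε (√r + N / √r + N / l ^ K)`, `M + N ^ ε y`, `M + N ^ ε √(log q₀q₁) + ω(q₂)`,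
`N ^ ε (√N + (log q₁) ^ (1 / 4)) + ω(q₂)`, `D ^ κ N ^ ε (√N + √((log q₁) / P)) + ω(q₂)` and
`D ^ κ N ^ ε + D (log q₀q₁) / P + ω(q₂)`, where
`M = √N min (q / φ(q)) (1 + log N)`, `r ≥ 3` is odd, squarefree, coprime to `q`, with all primes
at least `l`, at least `N ^ ε √y` primes `p ≤ y` do not divide `q`, and
`N ^ ε ≤ P ≤ D (1 + #{odd primes p ≤ P, p ∣ q})`.  If at least `u` primes of `(x / 2, x]` divide
`q`, `N ≤ x ^ 2` and `x (1 + log x) ≤ N ^ (1 / 4800) u`, it is at most `C √N` when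
`C (1 + log N) (log q) ≤ u ^ 2`, and at most `C (N ^ (1 / 2 + ε) + ω(q₂))` when
`C (1 + log N) (N + log q₁) ≤ u ^ 2`. -/
theorem result : ∀ ε K : ℝ, 0 < ε → 0 < K → ∃ C κ : ℝ, 0 < C ∧
    ∀ (N q q₀ q₁ q₂ a P y r l x u S w : ℕ) (D : ℝ),
    1 ≤ N → 1 ≤ q → 1 ≤ y → 1 ≤ l → q = q₀ * q₁ * q₂ → Nat.Coprime q₀ q₁ →
    Nat.Coprime (q₀ * q₁) q₂ → Nat.Coprime q a → (∀ p : ℕ, p.Prime → p ∣ q₀ → p ≤ N) →
    2 ≤ r → Squarefree r → Odd r → Nat.Coprime r q →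
    (∀ p : ℕ, p.Prime → p ∣ r → l ≤ p) →
    (N : ℝ) ^ ε * Real.sqrt y ≤
      (((Finset.Icc 1 y).filter (fun p => p.Prime ∧ ¬ p ∣ q)).card : ℝ) →
    (N : ℝ) ^ ε ≤ P → 1 ≤ D →
    (P : ℝ) ≤ D * (1 + ((q.primeFactors.filter (fun p => p ≠ 2 ∧ p ≤ P)).card : ℝ)) →
    S = ((Finset.range N).filter (fun n => IsSquare (q * n + a))).card →
    w = q₂.primeFactors.card →
    (S : ℝ) ≤ C * min (min (min (min (min
        ((N : ℝ) ^ ε * (Real.sqrt r + N / Real.sqrt r + N / (l : ℝ) ^ K))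
        (Real.sqrt N * min (q / (Nat.totient q : ℝ)) (1 + Real.log N) + (N : ℝ) ^ ε * y))
        (Real.sqrt N * min (q / (Nat.totient q : ℝ)) (1 + Real.log N) +
          (N : ℝ) ^ ε * Real.sqrt (Real.log (q₀ * q₁ : ℕ)) + w))
        ((N : ℝ) ^ ε * (Real.sqrt N + Real.log q₁ ^ (1 / 4 : ℝ)) + w))
        (D ^ κ * (N : ℝ) ^ ε * (Real.sqrt N + Real.sqrt (Real.log q₁ / P)) + w))
        (D ^ κ * (N : ℝ) ^ ε + D * Real.log (q₀ * q₁ : ℕ) / P + w) ∧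
    (u ≤ (q.primeFactors.filter (fun p => x < 2 * p ∧ p ≤ x)).card → N ≤ x ^ 2 →
      (x : ℝ) * (1 + Real.log x) ≤ (N : ℝ) ^ (1 / 4800 : ℝ) * u →
      (C * (1 + Real.log N) * Real.log q ≤ (u : ℝ) ^ 2 → (S : ℝ) ≤ C * Real.sqrt N) ∧
      (C * (1 + Real.log N) * (N + Real.log q₁) ≤ (u : ℝ) ^ 2 →
        (S : ℝ) ≤ C * ((N : ℝ) ^ (1 / 2 + ε) + w))) := by
  intro ε K hε hK
  obtain ⟨C, κ, hC, h⟩ := Pool.Agent.Helper18.RD6.fin16 ε K hε hK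
  refine ⟨C, κ, hC, ?_⟩
  intro N q q₀ q₁ q₂ a P y r l x u S w D hN hq hy hl hqe hc01 hc2 hcopa hsm hr2 hrs hro hrc hrl
    hNy hNP hD hPD hS hw
  subst hS hw
  exact h N q q₀ q₁ q₂ a P y r l x u D hN hq hy hl hqe hc01 hc2 hcopa hsm hr2 hrs hro hrc hrl hNy
    hNP hD hPD

end Pool.Agent.Results.MP_b7477f_nt.LargePrimePowers
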